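import Pool.Agent.TH864.J313
import Pool.Agent.TH896.RC.Stm2

set_option autoImplicit false

/-!
# Exceptions of level `K` to Robin's inequality: criterion and estimates
-/

namespace Pool.Agent.TH466.LowK

open Finset Nat Filter
open Pool.Agent.TH896.RC Pool.Agent.TH864.J313

/-- the sum of the `p ^ (-(a_p + 1))` -/
noncomputable def SS (v : ℝ) : ℝ :=
  ∑ p ∈ primesLE ⌊Real.exp v⌋₊, ((p : ℝ) ^ (p.log ⌊Real.exp v⌋₊ + 1))⁻¹

/-- the constant for the level -/
noncomputable def kap (K : ℝ) : ℝ := min (K / 2) (2 * K)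

/-- the abundancy index of `lcm(1, ..., Y)` -/
lemma ls_lcmUpto' (N : ℕ) :
    ∑ n ∈ Icc 2 N, ArithmeticFunction.vonMangoldt n / (n * Real.log n) -
      2 * ∑ p ∈ primesLE N, ((p : ℝ) ^ (p.log N + 1))⁻¹ ≤ ls (lcmUpto N) := by
  rw [ls_eq (lcmUpto_ne_zero _), primeFactors_lcmUpto, sum_lam]
  have h2 : ∑ p ∈ primesLE N, ∑ k ∈ Icc 1 (p.log N), ((k : ℝ) * (p : ℝ) ^ k)⁻¹ ≤
      ∑ p ∈ primesLE N, (-Real.log (1 - (p : ℝ)⁻¹)) := by
    refine Finset.sum_le_sum fun p hp => ?_
    have hp' := prime_of_mem_primesLE hp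
    have hp2 : (2 : ℝ) ≤ p := by exact_mod_cast hp'.two_le
    have h3 : (p : ℝ)⁻¹ ≤ 2⁻¹ := inv_anti₀ (by norm_num) hp2
    refine le_trans (le_of_eq ?_) (sum_le_neg_log (x := (p : ℝ)⁻¹) (by positivity)
      (by linarith) (p.log N))
    refine Finset.sum_congr rfl fun k _ => ?_
    rw [mul_inv, inv_pow, div_eq_mul_inv, mul_comm]
  have h3 : ∑ p ∈ primesLE N,
      (-(2 * ((p : ℝ) ^ (p.log N + 1))⁻¹) + (-Real.log (1 - (p : ℝ)⁻¹))) ≤
      ∑ p ∈ primesLE N,
      (Real.log (1 - ((p : ℝ) ^ ((lcmUpto N).factorization p + 1))⁻¹) -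
        Real.log (1 - (p : ℝ)⁻¹)) := by
    refine Finset.sum_le_sum fun p hp => ?_
    have hp' := prime_of_mem_primesLE hp
    have hp2 : (2 : ℝ) ≤ p := by exact_mod_cast hp'.two_le
    rw [factorization_lcmUpto _ hp']
    have h4 : ((p : ℝ) ^ (p.log N + 1))⁻¹ ≤ 1 / 2 := by
      rw [one_div]
      apply inv_anti₀ (by norm_num)
      calc (2 : ℝ) ≤ (p : ℝ) ^ 1 := by simpa using hp2
        _ ≤ _ := pow_le_pow_right₀ (by linarith) (by lia)
    have := neg_log_le (x := ((p : ℝ) ^ (p.log N + 1))⁻¹) (by positivity) h4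
    linarith
  rw [Finset.sum_add_distrib, Finset.sum_neg_distrib, ← Finset.mul_sum] at h3
  linarith

lemma finite_excK (K x : ℝ) : {n : ℕ | ExcK K n ∧ (n : ℝ) ≤ x}.Finite := by
  refine (Set.finite_Iic ⌊x⌋₊).subset ?_
  rintro n ⟨-, h⟩
  exact Nat.le_floor h

/-- the factor of level `K` -/
lemma log_level {K v x : ℝ} (hx1 : Real.exp v / 4 ≤ x) (hx2 : x ≤ 4 * Real.exp v)
    (h0 : 0 < 1 - K / √x) : Real.log (1 - K / √x) ≤ -(kap K * Real.exp (-(v / 2))) := by
  have hYpos : 0 < Real.exp v := Real.exp_pos v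
  have hx : 0 < x := by linarith
  have hs : 0 < √x := Real.sqrt_pos.2 hx
  have h1 : Real.log (1 - K / √x) ≤ -(K / √x) := by
    have := Real.log_le_sub_one_of_pos h0
    linarith
  have hsY : √(Real.exp v) = Real.exp (v / 2) := by rw [← Real.exp_half]
  have hs2 : √x ≤ 2 * Real.exp (v / 2) := by
    rw [← hsY, Real.sqrt_le_left (by positivity), mul_pow, Real.sq_sqrt hYpos.le]
    linarith
  have hs1 : Real.exp (v / 2) / 2 ≤ √x := by
    rw [← hsY]
    apply Real.le_sqrt_of_sq_le
    rw [div_pow, Real.sq_sqrt hYpos.le]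
    linarith
  have he : 0 < Real.exp (v / 2) := Real.exp_pos _
  have hee : Real.exp (-(v / 2)) = 1 / Real.exp (v / 2) := by rw [Real.exp_neg, one_div]
  refine h1.trans (neg_le_neg ?_)
  rw [hee]
  rcases le_or_gt 0 K with hK | hK
  · have h2 : kap K ≤ K / 2 := min_le_left _ _
    calc kap K * (1 / Real.exp (v / 2)) ≤ K / 2 * (1 / Real.exp (v / 2)) := by gcongr
      _ = K / (2 * Real.exp (v / 2)) := by field_simp
      _ ≤ K / √x := div_le_div_of_nonneg_left hK hs hs2
  · have h2 : kap K ≤ 2 * K := min_le_right _ _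
    calc kap K * (1 / Real.exp (v / 2)) ≤ 2 * K * (1 / Real.exp (v / 2)) := by gcongr
      _ = -((-K) / (Real.exp (v / 2) / 2)) := by field_simp
      _ ≤ -((-K) / √x) := by
          apply neg_le_neg
          exact div_le_div_of_nonneg_left (by linarith) (by positivity) hs1
      _ = K / √x := by ring

/-- main criterion -/
lemma excK_of {K v : ℝ} (hv : 2 ≤ v) {n : ℕ} (hn : 3 ≤ n) {d1 d2 : ℝ}
    (h1 : ls (lcmUpto ⌊Real.exp v⌋₊) + d1 ≤ ls n)
    (h2 : Real.log n ≤ Chebyshev.psi (Real.exp v) + d2)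
    (h3 : Real.exp v / 4 ≤ Real.log n) (h4 : Real.log n ≤ 4 * Real.exp v)
    (h : 0 ≤ B v - 2 * SS v + d1 - d2 / (Real.exp v * v) + kap K * Real.exp (-(v / 2))) :
    ExcK K n := by
  refine ⟨hn, ?_⟩
  have hls := ls_lcmUpto' ⌊Real.exp v⌋₊
  change _ - 2 * SS v ≤ _ at hls
  set Y := Real.exp v with hY
  have hYpos : 0 < Y := Real.exp_pos v
  have hB : B v = ∑ n ∈ Finset.Icc 2 ⌊Y⌋₊, ArithmeticFunction.vonMangoldt n / (n * Real.log n) -
    Real.eulerMascheroniConstant - Real.log v - E v / (Y * v) := rfl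
  have hn3 : (3 : ℝ) ≤ n := by exact_mod_cast hn
  have hlog1 : 1 < Real.log n := by
    rw [Real.lt_log_iff_exp_lt (by linarith)]
    have := Real.exp_one_lt_d9
    linarith
  have hll : 0 < Real.log (Real.log n) := Real.log_pos hlog1
  have hv0 : 0 < v := by linarith
  have hnpos : (0 : ℝ) < n := by linarith
  have hs1 : (0 : ℝ) < ArithmeticFunction.sigma 1 n := by
    have : 0 < ArithmeticFunction.sigma 1 n := by
      rw [ArithmeticFunction.sigma_pos_iff]; lia
    exact_mod_cast this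
  rcases le_or_gt (1 - K / √(Real.log n)) 0 with hneg | hpos
  · refine le_trans ?_ hs1.le
    apply mul_nonpos_of_nonneg_of_nonpos _ hneg
    positivity
  -- log log log n
  have e1 : Real.log (Real.log n) ≤ v + (Real.log n - Y) / Y := by
    have := Real.log_le_sub_one_of_pos (show 0 < Real.log n / Y by positivity)
    rw [Real.log_div (by linarith) hYpos.ne', hY, Real.log_exp] at this
    rw [← hY] at this
    have h6 : (Real.log n - Y) / Y = Real.log n / Y - 1 := by field_simp
    linarith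
  have e2 : Real.log (Real.log (Real.log n)) ≤ Real.log v + (Real.log n - Y) / (Y * v) := by
    have := Real.log_le_sub_one_of_pos (show 0 < Real.log (Real.log n) / v by positivity)
    rw [Real.log_div hll.ne' hv0.ne'] at this
    have h6 : Real.log (Real.log n) / v ≤ 1 + (Real.log n - Y) / (Y * v) := by
      rw [div_le_iff₀ hv0]
      have : (1 + (Real.log n - Y) / (Y * v)) * v = v + (Real.log n - Y) / Y := by field_simp
      linarith
    linarith
  have e3 : (Real.log n - Y) / (Y * v) ≤ E v / (Y * v) + d2 / (Y * v) := by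
    rw [← add_div]
    apply div_le_div_of_nonneg_right _ (by positivity)
    unfold E
    rw [← hY]
    linarith
  have e4 := log_level (K := K) (v := v) (x := Real.log n) h3 h4 hpos
  have key : Real.eulerMascheroniConstant + Real.log (Real.log (Real.log n)) +
      Real.log (1 - K / √(Real.log n)) ≤ ls n := by
    linarith
  have hspos : 0 < (ArithmeticFunction.sigma 1 n : ℝ) / n := by positivity
  have key2 := Real.exp_le_exp.mpr key
  unfold ls at key2
  rw [Real.exp_add, Real.exp_add, Real.exp_log hll, Real.exp_log hspos, Real.exp_log hpos,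
    le_div_iff₀ hnpos] at key2
  linarith

/-- Chebyshev's lower bound -/
lemma ev_psi_ge : ∀ᶠ v : ℝ in atTop, Real.exp v / 4 ≤ Chebyshev.psi (Real.exp v) := by
  filter_upwards [ev_exp 8 0 1 (by norm_num), eventually_ge_atTop 0] with v h1 h2
  have h3 := Chebyshev.psi_ge' (x := Real.exp v) (Real.exp_pos v).le
  rw [zero_mul, Real.exp_zero, one_mul, mul_one] at h1
  have h4 : Real.log (Real.exp v + 2) ≤ v + 2 := by
    rw [Real.log_le_iff_le_exp (by positivity), Real.exp_add]
    have h5 : (1 : ℝ) ≤ Real.exp v := Real.one_le_exp h2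
    have h6 : (3 : ℝ) ≤ Real.exp 2 := by
      have := Real.add_one_le_exp (2 : ℝ)
      linarith
    nlinarith
  have h7 := Real.log_two_gt_d9
  have h8 := Real.log_two_lt_d9
  nlinarith

lemma SS_nonneg (v : ℝ) : 0 ≤ SS v := by
  unfold SS
  exact Finset.sum_nonneg fun p _ => by positivity

lemma SS_le {v : ℝ} (hv : 2 ≤ v) : SS v ≤ 3 * Real.exp (-(v / 2)) := by
  have hY4 : 4 ≤ Real.exp v := by
    have h3 : (1 : ℝ) + 1 ≤ Real.exp 1 := Real.add_one_le_exp 1
    have h4 : Real.exp v = Real.exp (v / 2) * Real.exp (v / 2) := by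
      rw [← Real.exp_add]; ring_nf
    have h5 : Real.exp 1 ≤ Real.exp (v / 2) := Real.exp_le_exp.mpr (by linarith)
    nlinarith
  have h := sum_inv_pow hY4
  have hsq : √(Real.exp v) = Real.exp (v / 2) := by rw [← Real.exp_half]
  rw [hsq] at h
  rw [Real.exp_neg, ← div_eq_mul_inv]
  exact h

/-- sum of `log p / p ^ 2` -/
lemma sum_log_sq {z : ℕ} (hz : 1 ≤ z) (N : ℕ) (hN : z ≤ N) :
    ∑ p ∈ (Ioc z N).filter Nat.Prime, Real.log p / (p : ℝ) ^ 2 ≤
      Chebyshev.theta N / (N : ℝ) ^ 2 + 2 * Real.log 4 * (1 / (z : ℝ) - 1 / (N : ℝ)) := by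
  induction N, hN using Nat.le_induction with
  | base =>
    simp only [Ioc_self, filter_empty, sum_empty, sub_self, mul_zero, add_zero]
    have := Chebyshev.theta_nonneg (z : ℝ)
    positivity
  | succ N hN ih =>
    have hN1 : (1 : ℝ) ≤ N := by exact_mod_cast hz.trans hN
    have hth := Chebyshev.theta_le_log4_mul_x (x := (N : ℝ)) (by linarith)
    have hθ0 := Chebyshev.theta_nonneg (N : ℝ)
    have hl4 : 0 < Real.log 4 := Real.log_pos (by norm_num)
    have key : Chebyshev.theta N / (N : ℝ) ^ 2 + 2 * Real.log 4 * (1 / (z : ℝ) - 1 / (N : ℝ)) ≤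
        Chebyshev.theta N / ((N : ℝ) + 1) ^ 2 +
          2 * Real.log 4 * (1 / (z : ℝ) - 1 / ((N : ℝ) + 1)) := by
      have e1 : Chebyshev.theta N / (N : ℝ) ^ 2 - Chebyshev.theta N / ((N : ℝ) + 1) ^ 2 ≤
          2 * Real.log 4 * (1 / (N : ℝ) - 1 / ((N : ℝ) + 1)) := by
        have e2 : Chebyshev.theta N / (N : ℝ) ^ 2 - Chebyshev.theta N / ((N : ℝ) + 1) ^ 2 =
            Chebyshev.theta N * ((2 * N + 1) / ((N : ℝ) ^ 2 * ((N : ℝ) + 1) ^ 2)) := by
          field_simp
          ring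
        have e3 : 2 * Real.log 4 * (1 / (N : ℝ) - 1 / ((N : ℝ) + 1)) =
            Real.log 4 * N * ((2 * N + 2) / ((N : ℝ) ^ 2 * ((N : ℝ) + 1) ^ 2)) := by
          field_simp
          ring
        rw [e2, e3]
        gcongr
        linarith
      linarith
    have hcast : ((N + 1 : ℕ) : ℝ) = (N : ℝ) + 1 := by push_cast; ring
    have hI : Ioc z (N + 1) = insert (N + 1) (Ioc z N) := by
      ext x
      simp only [mem_Ioc, mem_insert]
      lia
    have hnot : N + 1 ∉ (Ioc z N).filter Nat.Prime := by simp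
    rw [hI, filter_insert]
    have hθ : Chebyshev.theta ((N + 1 : ℕ) : ℝ) = Chebyshev.theta N +
        if (N + 1).Prime then Real.log ((N + 1 : ℕ) : ℝ) else 0 := by
      rw [Chebyshev.theta_eq_sum_Icc, Chebyshev.theta_eq_sum_Icc, Nat.floor_natCast,
        Nat.floor_natCast]
      have hI2 : Icc 0 (N + 1) = insert (N + 1) (Icc 0 N) := by
        ext x
        simp only [mem_Icc, mem_insert]
        lia
      rw [hI2, filter_insert]
      split_ifs with hp
      · rw [sum_insert (by simp), add_comm]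
      · rw [add_zero]
    rw [hθ, hcast]
    split_ifs with hp
    · rw [sum_insert hnot, hcast, add_div]
      linarith
    · rw [add_zero]
      linarith

end Pool.Agent.TH466.LowK
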